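import Pool.Agent.R366.LG.APMain
import Pool.Agent.W472.AC.RothThm

/-!
# Lang's inequality for almost all terms of an arithmetic progression
-/

set_option autoImplicit false

namespace Pool.Agent.Results.MP_c307ca_nt.ArithmeticProgressions

open Finset Filter

open Classical in
/-- **Lang's inequality in arithmetic progressions.** Let `ξ` be a real algebraic irrational number
and `κ < 1`. For all `ε, η > 0` there is `c > 0` such that for every real number `β` and every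
`H ≥ 1` all but at most `1 + η H` of the `H` numbers `α = a ξ + β`, `0 ≤ a < H`, satisfy
`|α - p/q| > c / (q² (log q)^(1+ε))` for all integers `p` and all `2 ≤ q ≤ H^κ`. -/
theorem result (ξ : ℝ) (halg : IsAlgebraic ℚ ξ) (hirr : Irrational ξ) (κ ε η : ℝ) (hκ : κ < 1)
    (hε : 0 < ε) (hη : 0 < η) :
    ∃ c : ℝ, 0 < c ∧ ∀ (β : ℝ) (H : ℕ), 1 ≤ H →
      (((range H).filter (fun a : ℕ => ∃ (p : ℤ) (q : ℕ), 2 ≤ q ∧ (q : ℝ) ≤ (H : ℝ) ^ κ ∧
        |(a : ℝ) * ξ + β - (p : ℝ) / q| ≤ c / ((q : ℝ) ^ 2 * Real.log q ^ (1 + ε)))).card : ℝ) ≤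
      1 + η * H := by
  have hroth : ∀ τ : ℝ, 0 < τ → ∃ c : ℝ, 0 < c ∧ ∀ q : ℕ, 1 ≤ q → ∀ p : ℤ,
      c ≤ (q : ℝ) ^ (1 + τ) * |q * ξ - p| := fun τ hτ =>
    Pool.Agent.W472.AC.roth ξ halg hirr τ hτ
  set κ' : ℝ := max κ (1 / 2) with hκ'
  have hκ'0 : 0 < κ' := lt_of_lt_of_le (by norm_num) (le_max_right κ (1 / 2))
  have hκ'1 : κ' < 1 := max_lt hκ (by norm_num)
  set Z : ℝ := ∑' n : ℕ, 1 / ((n : ℝ) * Real.log 2) ^ (1 + ε) with hZ
  have hlog2 : 0 < Real.log 2 := Real.log_pos (by norm_num)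
  have hZ0 : 0 ≤ Z := tsum_nonneg fun n => by positivity
  set c1 : ℝ := η / (32 * (Z + 1)) with hc1
  have hc10 : 0 < c1 := by rw [hc1]; positivity
  have hc1Z : 16 * c1 * Z ≤ η / 2 := by
    calc 16 * c1 * Z ≤ 16 * (η / (32 * (Z + 1))) * (Z + 1) := by
          rw [hc1]
          exact mul_le_mul_of_nonneg_left (by linarith) (by positivity)
      _ = η / 2 := by
          field_simp
          norm_num
  obtain ⟨H0, hH0⟩ := eventually_atTop.mp
    (Pool.Agent.R366.LG.ap_large ξ hroth κ' ε η c1 hκ'0 hκ'1 hε hη hc10 hc1Z)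
  obtain ⟨c3, hc3, hr⟩ := hroth 1 one_pos
  obtain ⟨c2, hc2, hfew⟩ := Pool.Agent.R366.LG.ap_few ξ 1 c3 one_pos hc3 hr ε hε H0
  refine ⟨min c1 c2, lt_min hc10 hc2, fun β H hH => ?_⟩
  have hpos : ∀ q : ℕ, 2 ≤ q → 0 ≤ (q : ℝ) ^ 2 * Real.log q ^ (1 + ε) := by
    intro q hq
    have h2 : (2 : ℝ) ≤ q := by exact_mod_cast hq
    have hlog : 0 < Real.log q := Real.log_pos (by linarith)
    positivity
  have hHR1 : (1 : ℝ) ≤ H := by exact_mod_cast hH
  rcases lt_or_ge H H0 with h | h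
  · have h1 := hfew β H h.le ((range H).filter (fun a : ℕ => ∃ (p : ℤ) (q : ℕ), 2 ≤ q ∧
        (q : ℝ) ≤ (H : ℝ) ^ κ ∧
        |(a : ℝ) * ξ + β - (p : ℝ) / q| ≤ min c1 c2 / ((q : ℝ) ^ 2 * Real.log q ^ (1 + ε)))) (by
      intro a ha
      rw [mem_filter, mem_range] at ha
      obtain ⟨haH, p, q, hq2, hqκ, hle⟩ := ha
      refine ⟨haH, p, q, hq2, ?_, hle.trans (div_le_div_of_nonneg_right (min_le_right _ _)
        (hpos q hq2))⟩
      have h2 : (q : ℝ) ≤ H := by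
        refine hqκ.trans ?_
        calc (H : ℝ) ^ κ ≤ (H : ℝ) ^ (1 : ℝ) := Real.rpow_le_rpow_of_exponent_le hHR1 hκ.le
          _ = H := Real.rpow_one _
      have h3 : q ≤ H := by exact_mod_cast h2
      omega)
    have h2 : ((((range H).filter (fun a : ℕ => ∃ (p : ℤ) (q : ℕ), 2 ≤ q ∧
        (q : ℝ) ≤ (H : ℝ) ^ κ ∧ |(a : ℝ) * ξ + β - (p : ℝ) / q| ≤
          min c1 c2 / ((q : ℝ) ^ 2 * Real.log q ^ (1 + ε)))).card : ℕ) : ℝ) ≤ 1 := by
      exact_mod_cast h1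
    have h3 : 0 ≤ η * H := by positivity
    linarith
  · have h1 := hH0 H h β ((range H).filter (fun a : ℕ => ∃ (p : ℤ) (q : ℕ), 2 ≤ q ∧
        (q : ℝ) ≤ (H : ℝ) ^ κ ∧
        |(a : ℝ) * ξ + β - (p : ℝ) / q| ≤ min c1 c2 / ((q : ℝ) ^ 2 * Real.log q ^ (1 + ε)))) (by
      intro a ha
      rw [mem_filter, mem_range] at ha
      obtain ⟨haH, p, q, hq2, hqκ, hle⟩ := ha
      refine ⟨haH, p, q, hq2, hqκ.trans ?_, hle.trans (div_le_div_of_nonneg_right
        (min_le_left _ _) (hpos q hq2))⟩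
      exact Real.rpow_le_rpow_of_exponent_le hHR1 (le_max_left _ _))
    linarith

end Pool.Agent.Results.MP_c307ca_nt.ArithmeticProgressions
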