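import Mathlib
import Pool.Agent.R405.CF6
import Pool.Agent.W472.AC.RothThm

set_option autoImplicit false

/-!
# Lang's inequality in cubic fields

Let `ξ` be a real algebraic irrational number. We prove Lang's inequality, with a constant which
does not depend on the number, for almost all the numbers `α = (a ξ + b) / (c ξ + d)` with integers
`|a|, |b|, |c|, |d| ≤ H`, and all denominators up to any fixed power of `H`. If `ξ` is a cubic
number then these are all irrational elements of the cubic field `ℚ(ξ)`.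

Method: a rational number `p / q` close to `α` gives the point `(P, Q) = (d p - b q, a q - c p)`
for which `Q ξ - P` is small. If `g` is the greatest common divisor of `P` and `Q` and
`a d - b c = ± g n`, then both rows of the matrix are orthogonal modulo `n` to the primitive vector
`(P, Q) / g`. There are at most `O((H ^ 2 / n) ^ 2)` matrices with nonzero determinant with this
property, and the number of the vectors is estimated by Roth's theorem for `ξ` and an argument of
the geometry of numbers.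
-/

namespace Pool.Agent.Results.MP_c307ca_nt.CubicFields

open IntermediateField

/-- The integral matrices `((a, b), (c, d))` with nonzero determinant whose entries have absolute
value at most `H`. -/
def Matrices (H : ℕ) : Set ((ℤ × ℤ) × (ℤ × ℤ)) :=
  {g | |g.1.1| ≤ H ∧ |g.1.2| ≤ H ∧ |g.2.1| ≤ H ∧ |g.2.2| ≤ H ∧
    g.1.1 * g.2.2 - g.1.2 * g.2.1 ≠ 0}

/-- The number `(a ξ + b) / (c ξ + d)`. -/
noncomputable def image (g : (ℤ × ℤ) × (ℤ × ℤ)) (ξ : ℝ) : ℝ :=
  ((g.1.1 : ℝ) * ξ + g.1.2) / ((g.2.1 : ℝ) * ξ + g.2.2)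

/-- Lang's inequality for the number `α` with the constant `c`, for the denominators up to `N`. -/
def LangUpTo (N c ε α : ℝ) : Prop :=
  ∀ (p : ℤ) (q : ℕ), 2 ≤ q → (q : ℝ) ≤ N →
    c / ((q : ℝ) ^ 2 * Real.log q ^ (1 + ε)) < |α - (p : ℝ) / q|

/-- **Lang's inequality in cubic fields.** Let `ξ` be a real algebraic irrational number.

(1) For every `κ` and all `ε, η > 0` there is `c > 0` such that for every `H ≥ 1` all but at most
`η H⁴` of the integral matrices `((a, b), (c', d))` with nonzero determinant and entries of absolute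
value at most `H` have the property that `α = (a ξ + b) / (c' ξ + d)` satisfies
`|α - p / q| > c / (q² (log q)^(1+ε))` for all integers `p` and all `2 ≤ q ≤ H ^ κ`.

(2) If `ξ` is cubic then every irrational element of the field `ℚ(ξ)` is of this form. -/
theorem result (ξ : ℝ) (halg : IsAlgebraic ℚ ξ) (hirr : Irrational ξ) :
    (∀ κ ε η : ℝ, 0 < ε → 0 < η → ∃ c : ℝ, 0 < c ∧ ∀ H : ℕ, 1 ≤ H →
      {g | g ∈ Matrices H ∧ ¬ LangUpTo ((H : ℝ) ^ κ) c ε (image g ξ)}.Finite ∧
      ({g | g ∈ Matrices H ∧ ¬ LangUpTo ((H : ℝ) ^ κ) c ε (image g ξ)}.ncard : ℝ) ≤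
        η * (H : ℝ) ^ 4) ∧
    ((minpoly ℚ ξ).natDegree = 3 → ∀ α : ℝ, α ∈ ℚ⟮ξ⟯ → Irrational α →
      ∃ H : ℕ, ∃ g ∈ Matrices H, α = image g ξ) := by
  classical
  refine ⟨fun κ ε η hε hη => ?_, fun hdeg α hα hαirr => ?_⟩
  · obtain ⟨c, hc, h⟩ := Pool.Agent.R405.CF.main ξ hirr
      (fun τ hτ => Pool.Agent.W472.AC.roth ξ halg hirr τ hτ) κ ε η hε hη
    refine ⟨c, hc, fun H hH => ?_⟩
    have hsub : {g | g ∈ Matrices H ∧ ¬ LangUpTo ((H : ℝ) ^ κ) c ε (image g ξ)} ⊆
        (((Pool.Agent.R405.CF.Box H).filter (Pool.Agent.R405.CF.Bad ξ ε κ c H) :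
          Finset ((ℤ × ℤ) × (ℤ × ℤ))) : Set ((ℤ × ℤ) × (ℤ × ℤ))) := by
      rintro g ⟨⟨h1, h2, h3, h4, h5⟩, h6⟩
      rw [Finset.mem_coe, Finset.mem_filter]
      refine ⟨Pool.Agent.R405.CF.mem_Box.2 ⟨⟨h1, h2⟩, ⟨h3, h4⟩⟩, h5, ?_⟩
      unfold LangUpTo at h6
      push Not at h6
      obtain ⟨p, q, h7, h8, h9⟩ := h6
      exact ⟨p, q, h7, h8, h9⟩
    refine ⟨(Finset.finite_toSet _).subset hsub, ?_⟩
    have h1 := Set.ncard_le_ncard hsub (Finset.finite_toSet _)
    rw [Set.ncard_coe_finset] at h1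
    refine le_trans (by exact_mod_cast h1) (h H hH _ ?_)
    intro g hg
    rw [Finset.mem_filter] at hg
    exact hg
  · obtain ⟨a, b, c, d, h1, h2⟩ := Pool.Agent.R405.CF.cubic ξ hdeg α hα hαirr
    refine ⟨a.natAbs + b.natAbs + c.natAbs + d.natAbs, ((a, b), (c, d)), ?_, h2⟩
    have ea := abs_nonneg a
    have eb := abs_nonneg b
    have ec := abs_nonneg c
    have ed := abs_nonneg d
    refine ⟨?_, ?_, ?_, ?_, h1⟩ <;> push_cast <;> linarith

end Pool.Agent.Results.MP_c307ca_nt.CubicFields
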