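import Pool.Agent.R366.LG.Fib

/-!
# Lang's inequality in almost all fibres of a polynomial
-/

set_option autoImplicit false

namespace Pool.Agent.Results.MP_c307ca_nt.FibresOfPolynomials

open Finset Filter Polynomial

open Pool.Agent.R366.LG (growth lip fib_count fib_few rat_fin)
open Pool.Agent.Results.MP_c307ca_nt.AlmostAllToHeight (w w_pos w_summable w_eq)

/-- **Lang's inequality in almost all fibres of a polynomial.** Let `g` be an integer polynomial of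
degree `d ≥ 2` and `κ < 1`. For all `ε, η > 0` there is `c > 0` such that for all `A, B ≥ 1` all but
at most `η A B²` of the rational numbers `r` with `|r| ≤ A` and denominator at most `B` have the
property that every irrational real solution `α` of `g(α) = r` satisfies
`|α - p/q| > c / (q² (log q)^(1+ε))` for all integers `p` and all
`2 ≤ q ≤ (A^((d-1)/(2d)) B)^κ`. -/
theorem result (g : ℤ[X]) (hd : 2 ≤ g.natDegree) (κ ε η : ℝ) (hκ : κ < 1) (hε : 0 < ε)
    (hη : 0 < η) :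
    ∃ c : ℝ, 0 < c ∧ ∀ A B : ℕ, 1 ≤ A → 1 ≤ B →
      {r : ℚ | (|(r : ℝ)| ≤ A ∧ r.den ≤ B) ∧ ∃ α : ℝ, Irrational α ∧ aeval α g = (r : ℝ) ∧
        ∃ (p : ℤ) (q : ℕ), 2 ≤ q ∧
          (q : ℝ) ≤ ((A : ℝ) ^ (((g.natDegree : ℝ) - 1) / (2 * g.natDegree)) * B) ^ κ ∧
          |α - (p : ℝ) / q| ≤ c / ((q : ℝ) ^ 2 * Real.log q ^ (1 + ε))}.Finite ∧
      ({r : ℚ | (|(r : ℝ)| ≤ A ∧ r.den ≤ B) ∧ ∃ α : ℝ, Irrational α ∧ aeval α g = (r : ℝ) ∧
        ∃ (p : ℤ) (q : ℕ), 2 ≤ q ∧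
          (q : ℝ) ≤ ((A : ℝ) ^ (((g.natDegree : ℝ) - 1) / (2 * g.natDegree)) * B) ^ κ ∧
          |α - (p : ℝ) / q| ≤ c / ((q : ℝ) ^ 2 * Real.log q ^ (1 + ε))}.ncard : ℝ) ≤
        η * (A * (B : ℝ) ^ 2) := by
  classical
  obtain ⟨K, hK, hgr⟩ := growth g (by omega)
  obtain ⟨KL, hKL, hlip⟩ := lip g
  obtain ⟨d, hdd⟩ : ∃ d, g.natDegree = d := ⟨_, rfl⟩
  rw [hdd] at hd hgr hlip ⊢
  have hd0 : (0 : ℝ) < d := by
    have : 0 < d := by omega
    exact_mod_cast this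
  have hd2 : (2 : ℝ) ≤ d := by exact_mod_cast hd
  set κ' : ℝ := max κ (1 / 2) with hκ'
  have hκ'0 : 0 < κ' := lt_of_lt_of_le (by norm_num) (le_max_right κ (1 / 2))
  have hκ'1 : κ' < 1 := max_lt hκ (by norm_num)
  set Z : ℝ := ∑' q : ℕ, (q : ℝ) * w ε q with hZ
  have hZ0 : 0 ≤ Z := tsum_nonneg fun q => mul_nonneg (Nat.cast_nonneg q) (w_pos ε q).le
  have hlog2 : 0 < Real.log 2 := Real.log_pos (by norm_num)
  have hK0 : 0 < K := by linarith
  have hKL0 : 0 < KL := by linarith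
  set V : ℝ := 16 * KL * 3 ^ d * K with hV
  have hV0 : 0 < V := by rw [hV]; positivity
  set c1 : ℝ := min (Real.log 2 ^ (1 + ε)) (η / (2 * (V * (Z + 1)))) with hc1
  have hc10 : 0 < c1 := lt_min (by positivity) (by positivity)
  have hc1Z : V * c1 * Z ≤ η / 2 := by
    have h1 : c1 ≤ η / (2 * (V * (Z + 1))) := min_le_right _ _
    calc V * c1 * Z ≤ V * (η / (2 * (V * (Z + 1)))) * (Z + 1) :=
          mul_le_mul (mul_le_mul_of_nonneg_left h1 hV0.le) (by linarith) hZ0 (by positivity)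
      _ = η / 2 := by field_simp
  set δ : ℝ := 2 * (1 - κ') with hδ
  have hδ0 : 0 < δ := by rw [hδ]; linarith
  set T : ℝ := 16 * (2 * K) ^ (1 / (d : ℝ)) / η with hT
  have hT0 : 0 < T := by rw [hT]; positivity
  set X0 : ℝ := max 1 (T ^ (1 / δ)) with hX0
  have hX01 : 1 ≤ X0 := le_max_left _ _
  set M : ℕ := ⌈X0 ^ 4⌉₊ with hM
  have hMX : X0 ^ 4 ≤ M := Nat.le_ceil _
  have hX0M : X0 ≤ M := by
    refine le_trans ?_ hMX
    calc X0 = X0 ^ 1 := (pow_one _).symm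
      _ ≤ X0 ^ 4 := pow_le_pow_right₀ hX01 (by norm_num)
  obtain ⟨c2, hc2, hfew⟩ := fib_few g (by omega) M
  have hL0 : 0 < Real.log 2 ^ (1 + ε) := by positivity
  refine ⟨min c1 (c2 * Real.log 2 ^ (1 + ε)), lt_min hc10 (by positivity), fun A B hA hB => ?_⟩
  set c : ℝ := min c1 (c2 * Real.log 2 ^ (1 + ε)) with hc
  have hc0 : 0 < c := lt_min hc10 (by positivity)
  have hA1 : (1 : ℝ) ≤ A := by exact_mod_cast hA
  have hB1 : (1 : ℝ) ≤ B := by exact_mod_cast hB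
  have hA0 : (0 : ℝ) < A := by linarith
  have hB0 : (0 : ℝ) < B := by linarith
  set e : ℝ := ((d : ℝ) - 1) / (2 * d) with he
  have he0 : 0 ≤ e := by
    rw [he]
    apply div_nonneg <;> linarith
  have he4 : 1 / 4 ≤ e := by
    rw [he, div_le_div_iff₀ (by norm_num) (by positivity)]
    linarith
  set X : ℝ := (A : ℝ) ^ e * B with hX
  have hAe : 1 ≤ (A : ℝ) ^ e := Real.one_le_rpow hA1 he0
  have hX1 : 1 ≤ X := one_le_mul_of_one_le_of_one_le hAe hB1
  have hXp : 0 < X := by linarith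
  set S : Set ℚ := {r : ℚ | (|(r : ℝ)| ≤ A ∧ r.den ≤ B) ∧ ∃ α : ℝ, Irrational α ∧
    aeval α g = (r : ℝ) ∧ ∃ (p : ℤ) (q : ℕ), 2 ≤ q ∧ (q : ℝ) ≤ X ^ κ ∧
      |α - (p : ℝ) / q| ≤ c / ((q : ℝ) ^ 2 * Real.log q ^ (1 + ε))} with hS
  have hfin : S.Finite := (rat_fin A B).subset fun r hr => hr.1
  refine ⟨hfin, ?_⟩
  rw [Set.ncard_eq_toFinset_card S hfin]
  rcases lt_or_ge X X0 with h | h
  · -- small parameters
    have hempty : hfin.toFinset = ∅ := by
      rw [Finset.eq_empty_iff_forall_notMem]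
      intro r hr
      rw [Set.Finite.mem_toFinset] at hr
      obtain ⟨⟨h1, h2⟩, α, h3, h4, p, q, h5, h6, h7⟩ := hr
      have hBX : (B : ℝ) ≤ X := le_mul_of_one_le_left hB0.le hAe
      have hBM : B ≤ M := by
        have : (B : ℝ) ≤ M := by linarith
        exact_mod_cast this
      have hAX : (A : ℝ) ^ e ≤ X := le_mul_of_one_le_right (by positivity) hB1
      have hAM : (A : ℝ) ≤ M := by
        have g1 : (A : ℝ) ^ (1 / 4 : ℝ) ≤ X0 :=
          (Real.rpow_le_rpow_of_exponent_le hA1 he4).trans (hAX.trans h.le)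
        have g2 : ((A : ℝ) ^ (1 / 4 : ℝ)) ^ 4 = A := by
          rw [← Real.rpow_natCast, ← Real.rpow_mul hA0.le]
          norm_num
        calc (A : ℝ) = ((A : ℝ) ^ (1 / 4 : ℝ)) ^ 4 := g2.symm
          _ ≤ X0 ^ 4 := pow_le_pow_left₀ (by positivity) g1 4
          _ ≤ M := hMX
      have hqM : q ≤ M := by
        have g1 : (q : ℝ) ≤ X := by
          refine h6.trans ?_
          calc X ^ κ ≤ X ^ (1 : ℝ) := Real.rpow_le_rpow_of_exponent_le hX1 hκ.le
            _ = X := Real.rpow_one X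
        have : (q : ℝ) ≤ M := by linarith
        exact_mod_cast this
      have h8 := hfew r (h1.trans hAM) (h2.trans hBM) α h3 h4 p q h5 hqM
      have hq2 : (2 : ℝ) ≤ q := by exact_mod_cast h5
      have h9 : c / ((q : ℝ) ^ 2 * Real.log q ^ (1 + ε)) ≤ c2 := by
        have g1 : Real.log 2 ^ (1 + ε) ≤ Real.log q ^ (1 + ε) :=
          Real.rpow_le_rpow hlog2.le (Real.log_le_log (by norm_num) hq2) (by linarith)
        have g2 : Real.log 2 ^ (1 + ε) ≤ (q : ℝ) ^ 2 * Real.log q ^ (1 + ε) := by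
          have hq4 : (1 : ℝ) ≤ (q : ℝ) ^ 2 := one_le_pow₀ (by linarith)
          exact g1.trans (le_mul_of_one_le_left (hL0.le.trans g1) hq4)
        rw [div_le_iff₀ (lt_of_lt_of_le hL0 g2)]
        exact (min_le_right _ _).trans (mul_le_mul_of_nonneg_left g2 hc2.le)
      linarith
    rw [hempty, Finset.card_empty, Nat.cast_zero]
    positivity
  · set R : ℝ := (2 * K * A) ^ (1 / (d : ℝ)) with hR
    have hKA : 1 ≤ 2 * K * A := one_le_mul_of_one_le_of_one_le (by linarith) hA1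
    have hR1 : 1 ≤ R := Real.one_le_rpow hKA (by positivity)
    have hRd : R ^ d = 2 * K * A := by
      rw [hR, ← Real.rpow_natCast, ← Real.rpow_mul (by positivity), one_div,
        inv_mul_cancel₀ hd0.ne', Real.rpow_one]
    have hcount := fib_count g d hd K KL hK hKL hgr hlip ε c hε hc0
      ((min_le_left _ _).trans (min_le_left _ _)) A B ⌊X ^ κ'⌋₊ hA R hR1 hRd hfin.toFinset (by
        intro r hr
        rw [Set.Finite.mem_toFinset] at hr
        obtain ⟨⟨h1, h2⟩, α, h3, h4, p, q, h5, h6, h7⟩ := hr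
        refine ⟨h1, h2, α, h4, p, q, h5, ?_, ?_⟩
        · apply Nat.le_floor
          exact h6.trans (Real.rpow_le_rpow_of_exponent_le hX1 (le_max_left _ _))
        · rw [← w_eq ε c q h5]
          exact h7)
    refine hcount.trans ?_
    have ht1 : 8 * KL * (3 * R) ^ d * c * (B : ℝ) ^ 2 * Z ≤ η / 2 * (A * (B : ℝ) ^ 2) := by
      have g1 : 8 * KL * (3 * R) ^ d * c * (B : ℝ) ^ 2 * Z = V * c * Z * (A * (B : ℝ) ^ 2) := by
        rw [mul_pow, hRd, hV]
        ring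
      rw [g1]
      refine mul_le_mul_of_nonneg_right ?_ (by positivity)
      refine le_trans ?_ hc1Z
      exact mul_le_mul_of_nonneg_right (mul_le_mul_of_nonneg_left (min_le_left _ _) hV0.le) hZ0
    have ht2 : 8 * R * ((⌊X ^ κ'⌋₊ : ℕ) : ℝ) ^ 2 ≤ η / 2 * (A * (B : ℝ) ^ 2) := by
      have g1 : ((⌊X ^ κ'⌋₊ : ℕ) : ℝ) ≤ X ^ κ' := Nat.floor_le (by positivity)
      have g2 : ((⌊X ^ κ'⌋₊ : ℕ) : ℝ) ^ 2 ≤ (X ^ κ') ^ 2 :=
        pow_le_pow_left₀ (Nat.cast_nonneg _) g1 2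
      have g3 : (X ^ κ') ^ 2 = X ^ 2 * (X ^ δ)⁻¹ := by
        rw [← Real.rpow_natCast (X ^ κ'), ← Real.rpow_mul hXp.le, ← Real.rpow_neg hXp.le,
          ← Real.rpow_natCast X, ← Real.rpow_add hXp]
        congr 1
        rw [hδ]
        push_cast
        ring
      have g4 : T ≤ X ^ δ := by
        have g5 : T ^ (1 / δ) ≤ X := (le_max_right _ _).trans h
        calc T = (T ^ (1 / δ)) ^ δ := by
              rw [← Real.rpow_mul hT0.le, one_div, inv_mul_cancel₀ hδ0.ne', Real.rpow_one]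
          _ ≤ X ^ δ := Real.rpow_le_rpow (by positivity) g5 hδ0.le
      have g6 : R = (2 * K) ^ (1 / (d : ℝ)) * (A : ℝ) ^ (1 / (d : ℝ)) := by
        rw [hR, Real.mul_rpow (by positivity) hA0.le]
      have g7 : (A : ℝ) ^ (1 / (d : ℝ)) * X ^ 2 = A * (B : ℝ) ^ 2 := by
        rw [hX, mul_pow, ← mul_assoc, ← Real.rpow_natCast ((A : ℝ) ^ e), ← Real.rpow_mul hA0.le,
          ← Real.rpow_add hA0]
        congr 1
        have : 1 / (d : ℝ) + e * ((2 : ℕ) : ℝ) = 1 := by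
          rw [he]
          push_cast
          field_simp
          ring
        rw [this, Real.rpow_one]
      have hinv : (X ^ δ)⁻¹ ≤ T⁻¹ := inv_anti₀ hT0 g4
      calc 8 * R * ((⌊X ^ κ'⌋₊ : ℕ) : ℝ) ^ 2 ≤ 8 * R * (X ^ 2 * (X ^ δ)⁻¹) := by
            rw [← g3]
            exact mul_le_mul_of_nonneg_left g2 (by positivity)
        _ ≤ 8 * R * (X ^ 2 * T⁻¹) := by
            refine mul_le_mul_of_nonneg_left ?_ (by positivity)
            exact mul_le_mul_of_nonneg_left hinv (by positivity)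
        _ = 8 * (2 * K) ^ (1 / (d : ℝ)) * T⁻¹ * ((A : ℝ) ^ (1 / (d : ℝ)) * X ^ 2) := by
            rw [g6]
            ring
        _ = η / 2 * (A * (B : ℝ) ^ 2) := by
            rw [g7, hT]
            have : (2 * K) ^ (1 / (d : ℝ)) ≠ 0 := by positivity
            field_simp
            norm_num
    linarith

end Pool.Agent.Results.MP_c307ca_nt.FibresOfPolynomials
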