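import Pool.Agent.R366.LG.TrMain
import Pool.Agent.W472.AC.RothThm

/-!
# Lang's inequality for almost all rational translates of an algebraic number
-/

set_option autoImplicit false

namespace Pool.Agent.Results.MP_c307ca_nt.RationalTranslates

open Finset Filter

/-- **Lang's inequality for almost all rational translates.** Let `ξ` be a real algebraic irrational
number. For every `κ` and all `ε, η > 0` there is `c > 0` such that for every `H ≥ 1` all but at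
most `η H²` of the rational numbers `r` in `[0, 1)` with denominator at most `H` have the property
that `α = ξ + r` satisfies `|α - p/q| > c / (q² (log q)^(1+ε))` for all integers `p` and all
`2 ≤ q ≤ H^κ`. -/
theorem result (ξ : ℝ) (halg : IsAlgebraic ℚ ξ) (hirr : Irrational ξ) (κ ε η : ℝ)
    (hε : 0 < ε) (hη : 0 < η) :
    ∃ c : ℝ, 0 < c ∧ ∀ H : ℕ, 1 ≤ H →
      {r : ℚ | (0 ≤ r ∧ r < 1 ∧ r.den ≤ H) ∧ ∃ (p : ℤ) (q : ℕ), 2 ≤ q ∧ (q : ℝ) ≤ (H : ℝ) ^ κ ∧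
        |ξ + (r : ℝ) - (p : ℝ) / q| ≤ c / ((q : ℝ) ^ 2 * Real.log q ^ (1 + ε))}.Finite ∧
      ({r : ℚ | (0 ≤ r ∧ r < 1 ∧ r.den ≤ H) ∧ ∃ (p : ℤ) (q : ℕ), 2 ≤ q ∧ (q : ℝ) ≤ (H : ℝ) ^ κ ∧
        |ξ + (r : ℝ) - (p : ℝ) / q| ≤ c / ((q : ℝ) ^ 2 * Real.log q ^ (1 + ε))}.ncard : ℝ) ≤
      η * (H : ℝ) ^ 2 := by
  classical
  have hroth : ∀ τ : ℝ, 0 < τ → ∃ c : ℝ, 0 < c ∧ ∀ q : ℕ, 1 ≤ q → ∀ p : ℤ,
      c ≤ (q : ℝ) ^ (1 + τ) * |q * ξ - p| := fun τ hτ =>
    Pool.Agent.W472.AC.roth ξ halg hirr τ hτ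
  set κ' : ℝ := max κ 1 with hκ'
  have hκ'1 : 1 ≤ κ' := le_max_right κ 1
  set Z : ℝ := ∑' n : ℕ, 1 / ((n : ℝ) * Real.log 2) ^ (1 + ε) with hZ
  have hlog2 : 0 < Real.log 2 := Real.log_pos (by norm_num)
  have hZ0 : 0 ≤ Z := tsum_nonneg fun n => by positivity
  set c1 : ℝ := min (Real.log 2 ^ (1 + ε)) (η / (128 * (Z + 1))) with hc1
  have hc10 : 0 < c1 := lt_min (by positivity) (by positivity)
  have hc1Z : 64 * c1 * Z ≤ η / 2 := by
    have h1 : c1 ≤ η / (128 * (Z + 1)) := min_le_right _ _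
    calc 64 * c1 * Z ≤ 64 * (η / (128 * (Z + 1))) * (Z + 1) :=
          mul_le_mul (mul_le_mul_of_nonneg_left h1 (by norm_num)) (by linarith) hZ0
            (by positivity)
      _ = η / 2 := by
          field_simp
          norm_num
  obtain ⟨H0, hH0⟩ := eventually_atTop.mp
    (Pool.Agent.R366.LG.tr_large_H ξ hroth κ' ε η c1 hκ'1 hε hη hc10 (min_le_left _ _) hc1Z)
  obtain ⟨c3, hc3, hr⟩ := hroth 1 one_pos
  have hM : (1 : ℝ) ≤ ((H0 : ℝ) + 1) ^ κ' := by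
    apply Real.one_le_rpow _ (by linarith)
    have : (0 : ℝ) ≤ H0 := Nat.cast_nonneg _
    linarith
  obtain ⟨c2, hc2, hfew⟩ := Pool.Agent.R366.LG.tr_few ξ c3 hc3 hr ε hε
    (((H0 : ℝ) + 1) ^ κ') hM
  refine ⟨min c1 c2, lt_min hc10 hc2, fun H hH => ?_⟩
  have hpos : ∀ q : ℕ, 2 ≤ q → 0 ≤ (q : ℝ) ^ 2 * Real.log q ^ (1 + ε) := by
    intro q hq
    have h2 : (2 : ℝ) ≤ q := by exact_mod_cast hq
    have hlog : 0 < Real.log q := Real.log_pos (by linarith)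
    positivity
  have hHR1 : (1 : ℝ) ≤ H := by exact_mod_cast hH
  -- passage to pairs
  set S : Set ℚ := {r : ℚ | (0 ≤ r ∧ r < 1 ∧ r.den ≤ H) ∧ ∃ (p : ℤ) (q : ℕ), 2 ≤ q ∧
    (q : ℝ) ≤ (H : ℝ) ^ κ ∧
    |ξ + (r : ℝ) - (p : ℝ) / q| ≤ min c1 c2 / ((q : ℝ) ^ 2 * Real.log q ^ (1 + ε))} with hS
  set Ex : Finset (ℕ × ℕ) := ((range (H + 1)) ×ˢ (range (H + 1))).filter (fun z : ℕ × ℕ =>
    z.1 < z.2 ∧ ∃ (p : ℤ) (q : ℕ), 2 ≤ q ∧ (q : ℝ) ≤ (H : ℝ) ^ κ ∧
      |ξ + (z.1 : ℝ) / z.2 - (p : ℝ) / q| ≤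
        min c1 c2 / ((q : ℝ) ^ 2 * Real.log q ^ (1 + ε))) with hEx
  set f : ℚ → ℕ × ℕ := fun r => (r.num.toNat, r.den) with hf
  have hinj : Set.InjOn f S := by
    intro r hr s hs h
    simp only [hf, Prod.mk.injEq] at h
    have h1 : 0 ≤ r.num := Rat.num_nonneg.mpr hr.1.1
    have h2 : 0 ≤ s.num := Rat.num_nonneg.mpr hs.1.1
    exact Rat.ext (by omega) h.2
  have hmaps : ∀ r ∈ S, f r ∈ Ex := by
    intro r hr
    obtain ⟨⟨h0, h1, h2⟩, p, q, h3, h4, h5⟩ := hr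
    have hn0 : 0 ≤ r.num := Rat.num_nonneg.mpr h0
    have hnd : r.num < r.den := by
      have h6 : ((r.num : ℚ)) / r.den < 1 := by rw [Rat.num_div_den]; exact h1
      have hd : (0 : ℚ) < r.den := by exact_mod_cast r.den_pos
      rw [div_lt_one hd] at h6
      exact_mod_cast h6
    have hcast : ((r.num.toNat : ℕ) : ℝ) / ((r.den : ℕ) : ℝ) = (r : ℝ) := by
      have e1 : ((r.num.toNat : ℕ) : ℝ) = ((r.num : ℤ) : ℝ) := by
        have : ((r.num.toNat : ℕ) : ℤ) = r.num := Int.toNat_of_nonneg hn0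
        exact_mod_cast this
      rw [e1]
      exact (Rat.cast_def r).symm
    rw [hEx, mem_filter, mem_product, mem_range, mem_range]
    simp only [hf]
    refine ⟨⟨by omega, by omega⟩, by omega, p, q, h3, h4, ?_⟩
    rw [hcast]
    exact h5
  have hfin : S.Finite := by
    apply Set.Finite.of_finite_image (f := f) _ hinj
    apply Ex.finite_toSet.subset
    rintro _ ⟨r, hr, rfl⟩
    exact hmaps r hr
  refine ⟨hfin, ?_⟩
  have hncard : (S.ncard : ℝ) ≤ (Ex.card : ℝ) := by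
    have h1 : (f '' S).ncard = S.ncard := hinj.ncard_image
    rw [← h1, ← Set.ncard_coe_finset]
    exact_mod_cast Set.ncard_le_ncard (by
      rintro _ ⟨r, hr, rfl⟩
      exact hmaps r hr) Ex.finite_toSet
  refine hncard.trans ?_
  rcases lt_or_ge H H0 with h | h
  · have hE : Ex = ∅ := by
      rw [Finset.eq_empty_iff_forall_notMem]
      intro z hz
      rw [hEx, mem_filter, mem_product, mem_range, mem_range] at hz
      obtain ⟨⟨h1, h2⟩, h3, p, q, h4, h5, h6⟩ := hz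
      have hHH0 : (H : ℝ) ≤ (H0 : ℝ) + 1 := by
        have : (H : ℝ) ≤ H0 := by exact_mod_cast h.le
        linarith
      have hH01 : (1 : ℝ) ≤ (H0 : ℝ) + 1 := by
        have : (0 : ℝ) ≤ H0 := Nat.cast_nonneg _
        linarith
      have h7 : (z.2 : ℝ) ≤ ((H0 : ℝ) + 1) ^ κ' := by
        have h8 : (z.2 : ℝ) ≤ (H : ℝ) := by exact_mod_cast (by omega : z.2 ≤ H)
        calc (z.2 : ℝ) ≤ ((H0 : ℝ) + 1) ^ (1 : ℝ) := by
              rw [Real.rpow_one]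
              exact h8.trans hHH0
          _ ≤ _ := Real.rpow_le_rpow_of_exponent_le hH01 hκ'1
      have h8 : (q : ℝ) ≤ ((H0 : ℝ) + 1) ^ κ' := by
        calc (q : ℝ) ≤ (H : ℝ) ^ κ := h5
          _ ≤ (H : ℝ) ^ κ' := Real.rpow_le_rpow_of_exponent_le hHR1 (le_max_left _ _)
          _ ≤ _ := Real.rpow_le_rpow (by linarith) hHH0 (by linarith)
      have h9 := hfew z.1 z.2 p q (by omega) h7 h4 h8
      have h10 := div_le_div_of_nonneg_right (min_le_right c1 c2) (hpos q h4)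
      linarith
    rw [hE, Finset.card_empty, Nat.cast_zero]
    positivity
  · refine hH0 H h Ex ?_
    intro z hz
    rw [hEx, mem_filter, mem_product, mem_range, mem_range] at hz
    obtain ⟨⟨h1, h2⟩, h3, p, q, h4, h5, h6⟩ := hz
    refine ⟨h3, by omega, p, q, h4, h5.trans ?_, h6.trans (div_le_div_of_nonneg_right
      (min_le_left _ _) (hpos q h4))⟩
    exact Real.rpow_le_rpow_of_exponent_le hHR1 (le_max_left _ _)

end Pool.Agent.Results.MP_c307ca_nt.RationalTranslates
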